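import Pool.Agent.TH6.PF.BassT
import Pool.Agent.TH6.PF.KMod
import Pool.Agent.V1132.CN.Mod

set_option autoImplicit false

/-! The least norm of the support pattern of a presentation matrix of a finitely generated projective
module over the group ring of any group over any commutative domain is at most `3 / √2`, and exactly
`3 / √2` for every module violating the Bass trace conjecture. -/

namespace Pool.Agent.Results.MP_7903c7_al.CriticalTrace

open TH57.Thr TH6.PF Pool.Agent.V1132.CN Matrix

variable {R : Type} [CommRing R] {G : Type} [Group G] {k : ℕ}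

/-- The module `(RG)^k · A` has a presentation matrix whose support pattern has norm at most `c`. -/
def HasPres (A : Matrix (Fin k) (Fin k) (MonoidAlgebra R G)) (c : ℝ) : Prop :=
  ∃ (m n : ℕ) (M : Matrix (Fin m) (Fin n) (MonoidAlgebra R G)), ThinLE M c ∧
    Nonempty (LinearMap.range A.vecMulLinear ≃ₗ[MonoidAlgebra R G] Coker M)

/-- The least norm of the support pattern of a presentation matrix of `(RG)^k · A`. -/
noncomputable def presNorm (A : Matrix (Fin k) (Fin k) (MonoidAlgebra R G)) : ℝ :=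
  sInf {c : ℝ | 0 ≤ c ∧ HasPres A c}

/-- The trace conjecture for the matrix `A`: the value at `g` of the Hattori–Stallings rank of `A`
vanishes if the order of `g` (`0` if infinite) is not a unit of `R`. -/
def Bass (A : Matrix (Fin k) (Fin k) (MonoidAlgebra R G)) : Prop :=
  ∀ g : G, ¬ IsUnit ((orderOf g : ℕ) : R) →
    ∑ i : Fin k, ∑ᶠ (h : G) (_ : IsConj h g), (A i i).coeff h = 0

theorem up (A : Matrix (Fin k) (Fin k) (MonoidAlgebra R G)) (hA : A * A = A) (c : ℝ)
    (hc : 3 / Real.sqrt 2 < c) : HasPres A c := by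
  have hP : Module.Projective (MonoidAlgebra R G) (LinearMap.range A.vecMulLinear) := by
    refine Module.Projective.of_split (LinearMap.range A.vecMulLinear).subtype
      A.vecMulLinear.rangeRestrict ?_
    refine LinearMap.ext fun z => ?_
    obtain ⟨_, ⟨x, rfl⟩⟩ := z
    apply Subtype.ext
    change (x ᵥ* A) ᵥ* A = x ᵥ* A
    rw [Matrix.vecMul_vecMul, hA]
  have hF : Module.Finite (MonoidAlgebra R G) (LinearMap.range A.vecMulLinear) :=
    Module.Finite.range _
  exact thin_pres _ (Module.finitePresentation_of_projective _ _) c (sq_gt_of_gt hc).2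

theorem one_lt_thr : (1 : ℝ) < 3 / Real.sqrt 2 := by
  by_contra h
  push Not at h
  have h2 : (3 / Real.sqrt 2) ^ 2 ≤ 1 ^ 2 := pow_le_pow_left₀ thr_pos.le h 2
  rw [thr_sq] at h2
  norm_num at h2

theorem below [IsDomain R] (A : Matrix (Fin k) (Fin k) (MonoidAlgebra R G)) (hA : A * A = A)
    (c : ℝ) (h0 : 0 ≤ c) (hc : c < 3 / Real.sqrt 2) (h : HasPres A c) : Bass A := by
  obtain ⟨m, n, M, hM, ⟨φ⟩⟩ := h
  intro g hg
  exact bass_thin_module (max c 1) (lt_max_of_lt_right one_pos)
    (sq_lt_of_lt (le_max_of_le_left h0) (max_lt hc one_lt_thr)) A hA M (fun x =>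
      (hM x).trans (mul_le_mul_of_nonneg_right (pow_le_pow_left₀ h0 (le_max_left _ _) 2) (by
        unfold normSq
        exact Finset.sum_nonneg fun _ _ => Finset.sum_nonneg fun _ _ => sq_nonneg _))) φ g hg

theorem result :
    -- every commutative domain, every group, every idempotent matrix
    (∀ (R : Type) [CommRing R] [IsDomain R] (G : Type) [Group G] (k : ℕ)
      (A : Matrix (Fin k) (Fin k) (MonoidAlgebra R G)), A * A = A →
      (∀ c : ℝ, 3 / Real.sqrt 2 < c → HasPres A c) ∧
      0 ≤ presNorm A ∧ presNorm A ≤ 3 / Real.sqrt 2 ∧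
      (¬ Bass A → presNorm A = 3 / Real.sqrt 2)) ∧
    -- above `3 / √2` a bound on the pattern is no restriction, below it the conclusion holds
    (∀ (R : Type) [CommRing R] [IsDomain R] (G : Type) [Group G] (c : ℝ), 0 ≤ c →
      (3 / Real.sqrt 2 < c →
        ((∀ (k : ℕ) (A : Matrix (Fin k) (Fin k) (MonoidAlgebra R G)), A * A = A → Bass A) ↔
          ∀ (k : ℕ) (A : Matrix (Fin k) (Fin k) (MonoidAlgebra R G)), A * A = A → HasPres A c →
            Bass A)) ∧
      (c < 3 / Real.sqrt 2 →
        ∀ (k : ℕ) (A : Matrix (Fin k) (Fin k) (MonoidAlgebra R G)), A * A = A → HasPres A c →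
          Bass A)) ∧
    -- only matrices of critical norm matter
    (∀ (R : Type) [CommRing R] [IsDomain R] (G : Type) [Group G],
      (∀ (k : ℕ) (A : Matrix (Fin k) (Fin k) (MonoidAlgebra R G)), A * A = A → Bass A) ↔
        ∀ (k : ℕ) (A : Matrix (Fin k) (Fin k) (MonoidAlgebra R G)), A * A = A →
          presNorm A = 3 / Real.sqrt 2 → Bass A) := by
  have P : ∀ (R : Type) [CommRing R] [IsDomain R] (G : Type) [Group G] (k : ℕ)
      (A : Matrix (Fin k) (Fin k) (MonoidAlgebra R G)), A * A = A →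
      (∀ c : ℝ, 3 / Real.sqrt 2 < c → HasPres A c) ∧
      0 ≤ presNorm A ∧ presNorm A ≤ 3 / Real.sqrt 2 ∧
      (¬ Bass A → presNorm A = 3 / Real.sqrt 2) := by
    intro R _ _ G _ k A hA
    have h1 : ∀ c : ℝ, 3 / Real.sqrt 2 < c → c ∈ {c : ℝ | 0 ≤ c ∧ HasPres A c} := fun c hc =>
      ⟨(sq_gt_of_gt hc).1.le, up A hA c hc⟩
    refine ⟨fun c hc => up A hA c hc, Real.sInf_nonneg fun c hc => hc.1,
      sInf_le_thr (fun c hc => hc.1) _ h1, fun hB => ?_⟩
    refine sInf_thr (fun c hc => hc.1) _ h1 ?_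
    rintro c ⟨h0, h⟩
    by_contra hlt
    exact hB (below A hA c h0 (not_le.1 hlt) h)
  refine ⟨P, fun R _ _ G _ c h0 => ⟨fun hc => ⟨fun h k A hA _ => h k A hA, fun h k A hA =>
    h k A hA (up A hA c hc)⟩, fun hc k A hA h => below A hA c h0 hc h⟩,
    fun R _ _ G _ => ⟨fun h k A hA _ => h k A hA, fun h k A hA => ?_⟩⟩
  by_contra hB
  exact hB (h k A hA ((P R G k A hA).2.2.2 hB))

end Pool.Agent.Results.MP_7903c7_al.CriticalTrace
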