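import Pool.Agent.V11187.BT.Thm

set_option autoImplicit false

/-!
# The Bass trace conjecture for the groups `π / [R, R]`, `π` acting on a tree

Let the group `π` act by automorphisms (with or without inversions) on a tree, and let `R` be a normal
subgroup of `π`. The condition `TreeRel π R` says that the elements of `R` which fix a vertex have
finite order, and that the elements which fix a vertex and have infinite order modulo `R` are not
conjugate to proper powers modulo `R`. It holds for **every** normal subgroup `R` if the stabilizers
of the vertices are torsion groups (fundamental groups of graphs of torsion groups, for instance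
amalgamated products of torsion groups, or virtually free groups).

* If `TreeRel π R` holds, then no element of infinite order of `π / [R, R]` is conjugate to a proper
power. Nothing is assumed about `π / R` otherwise.
* Let `A` be any commutative domain, `H` a group and `K` a normal subgroup of `H` such that `H / K`
satisfies the Bass trace conjecture over `A`. Suppose that for all `h` in `H` of infinite order and
all `k` in `K` the elements `h` and `h k` are conjugate in `H`, or one of them is detected: for every
finitely generated subgroup `H0` containing it there is a homomorphism from `H0` to a group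
`π / [R, R]` with `TreeRel π R` for which its image has infinite order. Then `H` satisfies the
conjecture over `A`.
* `K = H`: the conjecture holds for `H` if all elements of infinite order are detected.
* The conjecture holds for `π / [R, R]`, `π` any group acting on a tree with torsion stabilizers and
`R` any normal subgroup of `π`.
-/

namespace Pool.Agent.Results.MP_7903c7_al.TreeRelationGroups

open Pool.Agent.V11187.BT (TreeRel DetT)
open Pool.Agent.Y75.BF (InfOrd)

universe u w

/-- The Bass trace conjecture for the domain `A` and the group `G`. -/
def BassFor (A : Type u) [CommRing A] [IsDomain A] (G : Type w) [Group G] : Prop :=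
  ∀ (n : ℕ) (M : Matrix (Fin n) (Fin n) (MonoidAlgebra A G)), M * M = M →
    ∀ g : G, ¬ IsUnit ((orderOf g : ℕ) : A) →
      ∑ i : Fin n, ∑ᶠ (h : G) (_ : IsConj h g), (M i i).coeff h = 0

theorem result (A : Type u) [CommRing A] [IsDomain A] :
    (∀ (π : Type) [Group π] (R : Subgroup π) [R.Normal], TreeRel π R →
      ∀ g : π ⧸ ⁅R, R⁆, InfOrd g → ∀ m : ℕ, 2 ≤ m → ¬ IsConj g (g ^ m)) ∧
    (∀ (H : Type w) [Group H] (K : Subgroup H) [K.Normal],
      (∀ h k : H, k ∈ K → InfOrd h → IsConj h (h * k) ∨ DetT H h ∨ DetT H (h * k)) →
      BassFor A (H ⧸ K) → BassFor A H) ∧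
    (∀ (H : Type w) [Group H], (∀ h : H, InfOrd h → DetT H h) → BassFor A H) ∧
    (∀ (π V : Type) [Group π] [MulAction π V] (Tr : SimpleGraph V), Tr.IsTree →
      (∀ (g : π) (u v : V), Tr.Adj u v → Tr.Adj (g • u) (g • v)) →
      (∀ (v : V) (x : π), x • v = v → IsOfFinOrder x) →
      ∀ (R : Subgroup π) [R.Normal], BassFor A (π ⧸ ⁅R, R⁆)) := by
  refine ⟨?_, ?_, ?_, ?_⟩
  · intro π _ R _ h g hg m hm
    exact Pool.Agent.V11187.BT.noPow_tree π R h g hg m hm
  · intro H _ K _ hK hQ
    apply Pool.Agent.V11187.BT.bass_ext A H K _ hQ
    intro h k hk hh h1 h2
    rcases hK h k hk hh with h3 | h3 | h3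
    · exact h3
    · exact absurd h3.det h1
    · exact absurd h3.det h2
  · intro H _ hH
    exact Pool.Agent.V11187.BT.bass_detect A H fun h hh => (hH h hh).det
  · intro π V _ _ Tr hT hadj htor R _
    apply Pool.Agent.V11187.BT.bass_detect A (π ⧸ ⁅R, R⁆)
    intro h hh
    apply DetT.det
    intro H0 _ hh0
    refine ⟨π, inferInstance, R, inferInstance, H0.subtype, ?_, hh⟩
    refine ⟨V, inferInstance, Tr, hT, hadj, fun v x hx => ⟨fun _ hi => ?_, fun hi => ?_⟩⟩
    · exact (Pool.Agent.V11187.BT.infOrd_iff x).mp hi (htor v x hx)
    · exact absurd ((QuotientGroup.mk' R).isOfFinOrder (htor v x hx))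
        ((Pool.Agent.V11187.BT.infOrd_iff _).mp hi)

end Pool.Agent.Results.MP_7903c7_al.TreeRelationGroups
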